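import Pool.Agent.W792.WA.Stm

/-!
WA-VIT2: convergence in the mean of bounded analytic functions propagates.
-/

namespace Pool.Agent.W391.WA.Vit2

open MeasureTheory Filter Metric
open scoped Topology NNReal

/-- The deterministic estimate. -/
theorem key (F : ℂ → ℂ) (r C : ℝ) (t1 ρ : ℝ≥0) (hd : DifferentiableOn ℂ F (ball 0 r))
    (hb : ∀ t ∈ ball (0 : ℂ) r, ‖F t‖ ≤ C) (h1 : 0 < t1) (h2 : (t1 : ℝ) < 1) (h3 : 1 < (ρ : ℝ))
    (h4 : (ρ : ℝ) < r) (N : ℕ) :
    ‖F 1‖ ≤ (∑ n ∈ Finset.range N, ((t1 : ℝ)⁻¹) ^ n) *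
        ((2 * Real.pi)⁻¹ * ∫ θ : ℝ in 0..2 * Real.pi, ‖F (circleMap 0 t1 θ)‖)
      + C * (((ρ : ℝ)⁻¹) ^ N * (1 - (ρ : ℝ)⁻¹)⁻¹) := by
  have hρ0 : 0 < ρ := by
    have : (0 : ℝ) < ρ := by linarith
    exact_mod_cast this
  have hC : 0 ≤ C := (norm_nonneg _).trans (hb 0 (by simp; linarith))
  have hp1 : HasFPowerSeriesOnBall F (cauchyPowerSeries F 0 t1) 0 t1 :=
    (hd.mono (fun z hz => by
      rw [mem_closedBall] at hz
      rw [mem_ball]
      linarith)).hasFPowerSeriesOnBall h1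
  have hp2 : HasFPowerSeriesOnBall F (cauchyPowerSeries F 0 ρ) 0 ρ :=
    (hd.mono (fun z hz => by
      rw [mem_closedBall] at hz
      rw [mem_ball]
      linarith)).hasFPowerSeriesOnBall hρ0
  have heq : cauchyPowerSeries F 0 ρ = cauchyPowerSeries F 0 t1 :=
    hp2.hasFPowerSeriesAt.eq_formalMultilinearSeries hp1.hasFPowerSeriesAt
  set p := cauchyPowerSeries F 0 ρ with hp
  set J : ℝ := (2 * Real.pi)⁻¹ * ∫ θ : ℝ in 0..2 * Real.pi, ‖F (circleMap 0 t1 θ)‖ with hJ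
  have hb1 : ∀ n, ‖p n‖ ≤ J * ((t1 : ℝ)⁻¹) ^ n := by
    intro n
    rw [heq]
    have := norm_cauchyPowerSeries_le F 0 t1 n
    rwa [abs_of_nonneg t1.coe_nonneg] at this
  have hb2 : ∀ n, ‖p n‖ ≤ C * ((ρ : ℝ)⁻¹) ^ n := by
    intro n
    have h := norm_cauchyPowerSeries_le F 0 ρ n
    rw [abs_of_nonneg ρ.coe_nonneg] at h
    refine h.trans ?_
    apply mul_le_mul_of_nonneg_right _ (by positivity)
    have hpi : 0 < 2 * Real.pi := by positivity
    rw [inv_mul_le_iff₀ hpi]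
    have h5 : ∫ θ : ℝ in 0..2 * Real.pi, ‖F (circleMap 0 ρ θ)‖ ≤
        ∫ θ : ℝ in 0..2 * Real.pi, C := by
      have hcont : Continuous fun θ : ℝ => F (circleMap 0 ρ θ) := by
        apply ContinuousOn.comp_continuous hd.continuousOn (continuous_circleMap 0 ρ)
        intro θ
        rw [mem_ball, dist_zero_right]
        simp only [norm_circleMap_zero, abs_of_nonneg ρ.coe_nonneg]
        exact h4
      apply intervalIntegral.integral_mono_on hpi.le
      · exact hcont.norm.intervalIntegrable _ _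
      · exact intervalIntegrable_const
      · intro θ _
        apply hb
        rw [mem_ball, dist_zero_right]
        simp only [norm_circleMap_zero, abs_of_nonneg ρ.coe_nonneg]
        exact h4
    refine h5.trans ?_
    rw [intervalIntegral.integral_const]
    simp only [sub_zero, smul_eq_mul]
    exact le_rfl
  have hρ1 : (ρ : ℝ)⁻¹ < 1 := by
    rw [inv_lt_one₀ (by linarith)]
    exact h3
  have hgs : Summable fun n : ℕ => C * ((ρ : ℝ)⁻¹) ^ n :=
    (summable_geometric_of_lt_one (by positivity) hρ1).mul_left C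
  have hps : Summable fun n => ‖p n‖ :=
    Summable.of_nonneg_of_le (fun n => norm_nonneg _) hb2 hgs
  have hsum : HasSum (fun n : ℕ => p n fun _ : Fin n => (1 : ℂ)) (F (0 + 1)) := by
    apply hp2.hasSum
    rw [Metric.mem_eball, edist_zero_right]
    rw [show ‖(1 : ℂ)‖ₑ = 1 by simp]
    have : (1 : ℝ≥0) < ρ := by exact_mod_cast h3
    exact_mod_cast this
  rw [zero_add] at hsum
  have hn : ∀ n, ‖p n fun _ : Fin n => (1 : ℂ)‖ ≤ ‖p n‖ := by
    intro n
    have := (p n).le_opNorm (fun _ => (1 : ℂ))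
    simpa only [norm_one, Finset.prod_const_one, mul_one] using this
  have hps' : Summable fun n => ‖p n fun _ : Fin n => (1 : ℂ)‖ :=
    Summable.of_nonneg_of_le (fun n => norm_nonneg _) hn hps
  have h6 : ‖F 1‖ ≤ ∑' n, ‖p n‖ := by
    rw [← hsum.tsum_eq]
    exact (norm_tsum_le_tsum_norm hps').trans (hps'.tsum_le_tsum hn hps)
  have h7 : ∑' n, ‖p n‖ = ∑ n ∈ Finset.range N, ‖p n‖ + ∑' n, ‖p (n + N)‖ :=
    (hps.sum_add_tsum_nat_add N).symm
  have h8 : ∑ n ∈ Finset.range N, ‖p n‖ ≤ (∑ n ∈ Finset.range N, ((t1 : ℝ)⁻¹) ^ n) * J := by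
    rw [Finset.sum_mul]
    apply Finset.sum_le_sum
    intro n _
    rw [mul_comm]
    exact hb1 n
  have h9 : ∑' n, ‖p (n + N)‖ ≤ C * (((ρ : ℝ)⁻¹) ^ N * (1 - (ρ : ℝ)⁻¹)⁻¹) := by
    have hs1 : Summable fun n => ‖p (n + N)‖ := (summable_nat_add_iff (f := fun n => ‖p n‖) N).2 hps
    have hs2 : Summable fun n : ℕ => C * ((ρ : ℝ)⁻¹) ^ (n + N) :=
      (summable_nat_add_iff (f := fun n : ℕ => C * ((ρ : ℝ)⁻¹) ^ n) N).2 hgs
    refine (hs1.tsum_le_tsum (fun n => hb2 (n + N)) hs2).trans ?_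
    rw [tsum_mul_left]
    apply mul_le_mul_of_nonneg_left _ hC
    have : ∀ n : ℕ, ((ρ : ℝ)⁻¹) ^ (n + N) = ((ρ : ℝ)⁻¹) ^ N * ((ρ : ℝ)⁻¹) ^ n := by
      intro n
      rw [pow_add, mul_comm]
    simp_rw [this]
    rw [tsum_mul_left, tsum_geometric_of_lt_one (by positivity) hρ1]
  linarith

open Pool.Agent.W792.WA in
theorem main : Pool.Agent.W792.WA.S_VIT2 := by
  intro Ω _ P _ r t₀ C g hr ht₀ hd hb hm hlim
  -- radii
  obtain ⟨ρ', hρ1, hρr⟩ := exists_between hr
  set ρ : ℝ≥0 := ⟨ρ', by linarith⟩ with hρ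
  have h3 : 1 < (ρ : ℝ) := hρ1
  have h4 : (ρ : ℝ) < r := hρr
  set t1 : ℝ≥0 := ⟨min t₀ 1 / 2, by positivity⟩ with ht1
  have h1 : 0 < t1 := by
    have : (0 : ℝ) < min t₀ 1 / 2 := by positivity
    exact_mod_cast this
  have h2 : (t1 : ℝ) < 1 := by
    change min t₀ 1 / 2 < 1
    have := min_le_right t₀ 1
    linarith
  have h2' : (t1 : ℝ) < t₀ := by
    change min t₀ 1 / 2 < t₀
    have := min_le_left t₀ 1
    linarith
  have hC : 0 ≤ C := by
    obtain ⟨ω⟩ : Nonempty Ω := P.nonempty_of_neZero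
    exact (norm_nonneg _).trans (hb 0 ω 0 (by simp; linarith))
  have hcr : ∀ θ : ℝ, circleMap 0 t1 θ ∈ ball (0 : ℂ) r := by
    intro θ
    rw [mem_ball, dist_zero_right]
    simp only [norm_circleMap_zero, abs_of_nonneg t1.coe_nonneg]
    linarith
  have hct : ∀ θ : ℝ, circleMap 0 t1 θ ∈ ball (0 : ℂ) t₀ := by
    intro θ
    rw [mem_ball, dist_zero_right]
    simp only [norm_circleMap_zero, abs_of_nonneg t1.coe_nonneg]
    exact h2'
  have h1r : (1 : ℂ) ∈ ball (0 : ℂ) r := by simpa using hr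
  -- joint measurability
  have hcont : ∀ M ω, Continuous fun θ : ℝ => g M (circleMap 0 t1 θ) ω := by
    intro M ω
    exact ContinuousOn.comp_continuous (hd M ω).continuousOn (continuous_circleMap 0 t1) hcr
  have hjm : ∀ M, StronglyMeasurable
      (Function.uncurry fun (θ : ℝ) (ω : Ω) => g M (circleMap 0 t1 θ) ω) := by
    intro M
    apply stronglyMeasurable_uncurry_of_continuous_of_stronglyMeasurable (hcont M)
    intro θ
    exact (hm M _ (hcr θ)).stronglyMeasurable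
  have hint : ∀ M, ∀ t ∈ ball (0 : ℂ) r, Integrable (fun ω => ‖g M t ω‖) P := by
    intro M t ht
    apply Integrable.of_bound (C := C)
    · exact (hm M t ht).norm.aestronglyMeasurable
    · refine Eventually.of_forall fun ω => ?_
      rw [norm_norm]
      exact hb M ω t ht
  -- the mean of J
  set J : ℕ → Ω → ℝ := fun M ω => (2 * Real.pi)⁻¹ *
    ∫ θ : ℝ in 0..2 * Real.pi, ‖g M (circleMap 0 t1 θ) ω‖ with hJ
  have hpi : 0 < 2 * Real.pi := by positivity
  set μ : Measure ℝ := volume.restrict (Set.Ioc 0 (2 * Real.pi)) with hμ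
  have : IsFiniteMeasure μ := by
    rw [hμ]
    infer_instance
  have hJ' : ∀ M ω, J M ω = (2 * Real.pi)⁻¹ * ∫ θ, ‖g M (circleMap 0 t1 θ) ω‖ ∂μ := by
    intro M ω
    simp only [hJ]
    rw [intervalIntegral.integral_of_le hpi.le]
  have hprod : ∀ M, Integrable
      (Function.uncurry fun (ω : Ω) (θ : ℝ) => ‖g M (circleMap 0 t1 θ) ω‖) (P.prod μ) := by
    intro M
    apply Integrable.of_bound (C := C)
    · have := ((hjm M).norm.comp_measurable (measurable_swap (α := Ω) (β := ℝ)))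
      exact this.aestronglyMeasurable
    · refine Eventually.of_forall fun x => ?_
      simp only [Function.uncurry]
      rw [norm_norm]
      exact hb M _ _ (hcr _)
  have hJint : ∀ M, Integrable (J M) P := by
    intro M
    have := (hprod M).integral_prod_left.const_mul ((2 * Real.pi)⁻¹)
    refine this.congr (Eventually.of_forall fun ω => ?_)
    simp only [hJ' M ω]
    rfl
  have hEJ : ∀ M, ∫ ω, J M ω ∂P = (2 * Real.pi)⁻¹ *
      ∫ θ, (∫ ω, ‖g M (circleMap 0 t1 θ) ω‖ ∂P) ∂μ := by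
    intro M
    simp_rw [hJ' M]
    rw [integral_const_mul]
    congr 1
    exact integral_integral_swap (hprod M)
  have hEJ0 : Tendsto (fun M => ∫ ω, J M ω ∂P) atTop (𝓝 0) := by
    simp_rw [hEJ]
    rw [show (0 : ℝ) = (2 * Real.pi)⁻¹ * ∫ _θ : ℝ, (0 : ℝ) ∂μ by simp]
    apply Tendsto.const_mul
    apply tendsto_integral_of_dominated_convergence (fun _ => C)
    · intro M
      have h := (hprod M).integral_prod_right
      exact h.aestronglyMeasurable
    · exact integrable_const C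
    · intro M
      refine Eventually.of_forall fun θ => ?_
      rw [Real.norm_of_nonneg (integral_nonneg fun ω => norm_nonneg _)]
      calc ∫ ω, ‖g M (circleMap 0 t1 θ) ω‖ ∂P ≤ ∫ _ω, C ∂P :=
            integral_mono (hint M _ (hcr θ)) (integrable_const C) (fun ω => hb M ω _ (hcr θ))
        _ = C := by simp
    · refine Eventually.of_forall fun θ => ?_
      exact hlim _ (hct θ)
  -- final estimate
  have hfin : ∀ N M : ℕ, ∫ ω, ‖g M 1 ω‖ ∂P ≤ (∑ n ∈ Finset.range N, ((t1 : ℝ)⁻¹) ^ n) *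
      (∫ ω, J M ω ∂P) + C * (((ρ : ℝ)⁻¹) ^ N * (1 - (ρ : ℝ)⁻¹)⁻¹) := by
    intro N M
    have hi := (hJint M).const_mul (∑ n ∈ Finset.range N, ((t1 : ℝ)⁻¹) ^ n)
    calc ∫ ω, ‖g M 1 ω‖ ∂P ≤ ∫ ω, ((∑ n ∈ Finset.range N, ((t1 : ℝ)⁻¹) ^ n) * J M ω
          + C * (((ρ : ℝ)⁻¹) ^ N * (1 - (ρ : ℝ)⁻¹)⁻¹)) ∂P := by
          apply integral_mono (hint M 1 h1r) (hi.add (integrable_const _))
          intro ω
          exact key (fun t => g M t ω) r C t1 ρ (hd M ω) (hb M ω) h1 h2 h3 h4 N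
      _ = _ := by
          rw [integral_add hi (integrable_const _), integral_const_mul]
          simp
  have hρi : (ρ : ℝ)⁻¹ < 1 := by
    rw [inv_lt_one₀ (by linarith)]
    exact h3
  have htail : Tendsto (fun N : ℕ => C * (((ρ : ℝ)⁻¹) ^ N * (1 - (ρ : ℝ)⁻¹)⁻¹)) atTop (𝓝 0) := by
    have := ((tendsto_pow_atTop_nhds_zero_of_lt_one (r := (ρ : ℝ)⁻¹) (by positivity) hρi).mul_const
      ((1 - (ρ : ℝ)⁻¹)⁻¹)).const_mul C
    simpa using this
  rw [Metric.tendsto_atTop]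
  intro ε hε
  obtain ⟨N, hN⟩ := ((tendsto_order.1 htail).2 (ε / 2) (by positivity)).exists
  have hlim2 : Tendsto (fun M => (∑ n ∈ Finset.range N, ((t1 : ℝ)⁻¹) ^ n) *
      (∫ ω, J M ω ∂P)) atTop (𝓝 0) := by
    have := hEJ0.const_mul (∑ n ∈ Finset.range N, ((t1 : ℝ)⁻¹) ^ n)
    simpa using this
  obtain ⟨M0, hM0⟩ := eventually_atTop.1 ((tendsto_order.1 hlim2).2 (ε / 2) (by positivity))
  refine ⟨M0, fun M hM => ?_⟩
  rw [Real.dist_eq, sub_zero, abs_of_nonneg (integral_nonneg fun ω => norm_nonneg _)]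
  have := hfin N M
  have := hM0 M hM
  linarith

end Pool.Agent.W391.WA.Vit2


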